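import Pool.Agent.Y709.Lay.StmR
import Mathlib.RingTheory.NoetherNormalization
import Mathlib.RingTheory.MatrixPolynomialAlgebra
import Mathlib.RingTheory.Norm.Transitivity
import Mathlib.RingTheory.Jacobson.Ring
import Mathlib.RingTheory.Algebraic.Integral
import Mathlib.RingTheory.Polynomial.UniqueFactorization
import Mathlib.RingTheory.PolynomialAlgebra
import Mathlib.Algebra.MvPolynomial.Nilpotent
import Mathlib.FieldTheory.Finite.Basic
import Mathlib.Data.Fintype.Pigeonhole
import Mathlib.Tactic

/-!
A polynomial of positive degree over the coordinate ring of a variety over a finite field has roots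
modulo closed points of arbitrarily large degree.
-/

set_option autoImplicit false
set_option linter.all false

open Polynomial

namespace Pool.Agent.Y141.Lay

open Pool.Agent.Y709.Lay

section matr
variable {F K : Type*} [Field F] [Field K] [Algebra F K] [FiniteDimensional F K]

/-- the norm of the values of a polynomial -/
theorem normPoly (g : K[X]) (hg : 0 < g.natDegree) : ∃ R : F[X],
    (∀ z : F, R.eval z = Algebra.norm F (g.eval (algebraMap F K z))) ∧
      ∀ α : F, α ≠ 0 → R ≠ C α := by
  classical
  let b := Module.finBasis F K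
  let φ : K →ₐ[F] Matrix (Fin (Module.finrank F K)) (Fin (Module.finrank F K)) F :=
    Algebra.leftMulMatrix b
  have hφ : Function.Injective φ := Algebra.leftMulMatrix_injective b
  let MZ := matPolyEquiv.symm (g.map φ.toRingHom)
  refine ⟨MZ.det, fun z => ?_, fun α hα h => ?_⟩
  · rw [eval_det, AlgEquiv.apply_symm_apply, Algebra.norm_eq_matrix_det b,
      Polynomial.eval_map]
    have h1 : Matrix.scalar (Fin (Module.finrank F K)) z = φ.toRingHom (algebraMap F K z) :=
      (φ.commutes z).symm
    rw [h1, Polynomial.eval₂_at_apply]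
    rfl
  · have hu : IsUnit MZ := (Matrix.isUnit_iff_isUnit_det _).2 (by
      rw [h]
      exact isUnit_C.2 (isUnit_iff_ne_zero.2 hα))
    have hu2 : IsUnit (g.map φ.toRingHom) := by
      have h1 := hu.map matPolyEquiv
      rwa [AlgEquiv.apply_symm_apply] at h1
    obtain ⟨H, hH⟩ := hu2.exists_right_inv
    have hd : (g.map φ.toRingHom).natDegree = g.natDegree :=
      Polynomial.natDegree_map_eq_of_injective hφ g
    have hlc : (g.map φ.toRingHom).leadingCoeff = φ g.leadingCoeff := by
      rw [Polynomial.leadingCoeff, hd, Polynomial.coeff_map]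
      rfl
    have hg0 : g.leadingCoeff ≠ 0 := by
      rw [Ne, Polynomial.leadingCoeff_eq_zero]
      rintro rfl
      simp at hg
    have h10 : (1 : (Matrix (Fin (Module.finrank F K)) (Fin (Module.finrank F K)) F)[X]) ≠ 0 := by
      intro h1
      have h2 := congrArg (fun p => Polynomial.coeff p 0) h1
      simp only [Polynomial.coeff_one_zero, Polynomial.coeff_zero] at h2
      have h3 : φ 1 = φ 0 := by rw [map_one, map_zero, h2]
      exact one_ne_zero (hφ h3)
    have hH0 : H ≠ 0 := by
      rintro rfl
      rw [mul_zero] at hH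
      exact h10 hH.symm
    have h1 : (g.map φ.toRingHom).leadingCoeff * H.leadingCoeff ≠ 0 := by
      intro h2
      have h3 := congrArg (fun m => φ (g.leadingCoeff)⁻¹ * m) h2
      simp only [hlc, ← mul_assoc, ← map_mul, inv_mul_cancel₀ hg0, map_one, one_mul,
        mul_zero] at h3
      exact hH0 (Polynomial.leadingCoeff_eq_zero.1 h3)
    have h2 := Polynomial.natDegree_mul' h1
    rw [hH, Polynomial.natDegree_one, hd] at h2
    omega

end matr

section main
variable (k : Type) [Field k] [Finite k] (A : Type) [CommRing A] [IsDomain A] [Algebra k A]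
  [Algebra.FiniteType k A]

theorem exists_nonunit (hA : ¬ Module.Finite k A) (g : A[X]) (hg : 0 < g.natDegree) :
    ∃ z : A, ¬ IsUnit (g.eval z) := by
  obtain ⟨s, f, hf, hfin⟩ := exists_finite_inj_algHom_of_fg k A
  let B := MvPolynomial (Fin s) k
  letI iBA : Algebra B A := f.toRingHom.toAlgebra
  have htow : IsScalarTower k B A := IsScalarTower.of_algebraMap_eq fun x => (f.commutes x).symm
  have hmf : Module.Finite B A := hfin
  have hinj : Function.Injective (algebraMap B A) := hf
  have hfaith : FaithfulSMul B A := (faithfulSMul_iff_algebraMap_injective _ _).2 hinj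
  have hs : 0 < s := by
    rcases Nat.eq_zero_or_pos s with h | h
    · exfalso
      apply hA
      subst h
      have h1 : Module.Finite k B :=
        Module.Finite.equiv (MvPolynomial.isEmptyAlgEquiv k (Fin 0)).symm.toLinearEquiv
      exact Module.Finite.trans B A
    · exact h
  have hne : Nonempty (Fin s) := ⟨⟨0, hs⟩⟩
  have hBinf : Infinite B := inferInstanceAs (Infinite (MvPolynomial (Fin s) k))
  let F := FractionRing B
  let K := FractionRing A
  letI iFK : Algebra F K := FractionRing.liftAlgebra B K
  have htow2 : IsScalarTower B F K := FractionRing.isScalarTower_liftAlgebra B K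
  have hfd : FiniteDimensional F K := inferInstance
  have hinjK : Function.Injective (algebraMap A K) := IsFractionRing.injective A K
  have hinjF : Function.Injective (algebraMap B F) := IsFractionRing.injective B F
  by_contra hcon
  push Not at hcon
  obtain ⟨R, hR1, hR2⟩ := normPoly (F := F) (g.map (algebraMap A K))
    (by rwa [Polynomial.natDegree_map_eq_of_injective hinjK])
  have hint : ∀ a : A, ∃ y : B, algebraMap B F y = Algebra.norm F (algebraMap A K a) := by
    intro a
    have h1 : IsIntegral B (algebraMap A K a) :=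
      (Algebra.IsIntegral.isIntegral (R := B) a).algebraMap
    exact IsIntegrallyClosed.isIntegral_iff.1 (Algebra.isIntegral_norm F h1)
  have key : ∀ z : B, ∃ α : k, α ≠ 0 ∧
      R.eval (algebraMap B F z) = algebraMap B F (MvPolynomial.C α) := by
    intro z
    obtain ⟨a', ha'⟩ := (hcon (algebraMap B A z)).exists_right_inv
    obtain ⟨y, hy⟩ := hint (g.eval (algebraMap B A z))
    obtain ⟨y', hy'⟩ := hint a'
    have h1 : y * y' = 1 := by
      apply hinjF
      rw [map_mul, hy, hy', ← map_mul, ← map_mul, ha', map_one, map_one, map_one]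
    have h2 : IsUnit y := IsUnit.of_mul_eq_one _ h1
    obtain ⟨r, hr, hyr⟩ := MvPolynomial.isUnit_iff_eq_C_of_isReduced.1 h2
    refine ⟨r, hr.ne_zero, ?_⟩
    rw [hR1, ← hyr, hy]
    congr 1
    have h3 : algebraMap F K (algebraMap B F z) = algebraMap A K (algebraMap B A z) := by
      rw [← IsScalarTower.algebraMap_apply B F K, ← IsScalarTower.algebraMap_apply B A K]
    rw [h3, Polynomial.eval_map, Polynomial.eval₂_at_apply]
  choose α hα0 hα using key
  obtain ⟨β, hβ⟩ := Finite.exists_infinite_fiber α
  have h1 : R = C (algebraMap B F (MvPolynomial.C β)) := by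
    apply Polynomial.eq_of_infinite_eval_eq
    have h2 : ((algebraMap B F) '' (α ⁻¹' {β})).Infinite :=
      (Set.infinite_coe_iff.1 hβ).image hinjF.injOn
    refine h2.mono ?_
    rintro _ ⟨z, hz, rfl⟩
    have h3 : α z = β := hz
    show R.eval (algebraMap B F z) = (C (algebraMap B F (MvPolynomial.C β))).eval _
    rw [Polynomial.eval_C, hα z, h3]
  have hβ0 : β ≠ 0 := by
    obtain ⟨z, hz⟩ := hβ.nonempty
    have h3 : α z = β := hz
    rw [← h3]
    exact hα0 z
  refine hR2 _ ?_ h1
  intro h2
  have h3 : (MvPolynomial.C β : B) = 0 := hinjF (by rw [h2, map_zero])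
  exact hβ0 (MvPolynomial.C_eq_zero.1 h3)

theorem fin_quot (c : Ideal A) (hc : c.IsMaximal) : Module.Finite k (A ⧸ c) := by
  letI : Field (A ⧸ c) := Ideal.Quotient.field c
  have hft : Algebra.FiniteType k (A ⧸ c) :=
    Algebra.FiniteType.of_surjective (Ideal.Quotient.mkₐ k c)
      (Ideal.Quotient.mkₐ_surjective k c)
  exact finite_of_finite_type_of_isJacobsonRing k (A ⧸ c)

theorem exists_w (hA : ¬ Module.Finite k A) (n : ℕ) : ∃ w : A, w ≠ 0 ∧
    ∀ c : Ideal A, c.IsMaximal → Module.finrank k (A ⧸ c) < n → w ∈ c := by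
  have h1 : ∃ y : A, ¬ IsIntegral k y := by
    by_contra hcon
    push Not at hcon
    have h2 : Algebra.IsIntegral k A := ⟨hcon⟩
    exact hA Algebra.IsIntegral.finite
  obtain ⟨y, hy⟩ := h1
  have hQ : 1 < Nat.card k := Finite.one_lt_card
  refine ⟨y ^ (Nat.card k ^ n.factorial) - y, ?_, ?_⟩
  · intro h0
    apply hy
    have h2 : 1 < Nat.card k ^ n.factorial := Nat.one_lt_pow (Nat.factorial_pos n).ne' hQ
    refine ⟨X ^ (Nat.card k ^ n.factorial) - X, ?_, ?_⟩
    · apply Polynomial.monic_X_pow_sub
      rw [Polynomial.degree_X]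
      exact_mod_cast h2
    · simpa using h0
  · intro c hc hlt
    letI : Field (A ⧸ c) := Ideal.Quotient.field c
    have hfin := fin_quot k A c hc
    have hpos : 0 < Module.finrank k (A ⧸ c) := Module.finrank_pos
    obtain ⟨e, he⟩ := Nat.dvd_factorial hpos hlt.le
    have hf : Finite (A ⧸ c) := Module.finite_of_finite k
    have hcard : Nat.card (A ⧸ c) = Nat.card k ^ Module.finrank k (A ⧸ c) :=
      Module.natCard_eq_pow_finrank
    rw [← Ideal.Quotient.eq_zero_iff_mem, map_sub, map_pow, he, pow_mul, ← hcard, sub_eq_zero]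
    have := Fintype.ofFinite (A ⧸ c)
    rw [Nat.card_eq_fintype_card]
    exact FiniteField.pow_card_pow e _

end main

theorem existsRootPoint : ExistsRootPoint := by
  intro k _ _ A _ _ _ _ hA u hu g hg n
  obtain ⟨w, hw0, hw⟩ := exists_w k A hA n
  have hD : u * w ≠ 0 := mul_ne_zero hu hw0
  -- a maximal ideal containing `1 + u w t` and a value of `g`
  have key : ∃ (c : Ideal A) (t x : A), c.IsMaximal ∧ 1 + (u * w) * t ∈ c ∧ g.eval x ∈ c := by
    by_cases h0 : g.coeff 0 = 0
    · obtain ⟨z, hz⟩ := exists_nonunit k A hA (C (u * w) * X + C 1) (by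
        rw [Polynomial.natDegree_linear hD]
        exact one_pos)
      obtain ⟨c, hc, hzc⟩ := exists_max_ideal_of_mem_nonunits hz
      refine ⟨c, z, 0, hc, ?_, ?_⟩
      · have : (C (u * w) * X + C 1 : A[X]).eval z = 1 + (u * w) * z := by
          simp [add_comm]
        rwa [this] at hzc
      · rw [← Polynomial.coeff_zero_eq_eval_zero, h0]
        exact c.zero_mem
    · obtain ⟨P, hP⟩ : ∃ P : A[X], P = g.divX.comp (C (u * w * g.coeff 0) * X) := ⟨_, rfl⟩
      have hcf : ∀ i, P.coeff i = g.coeff (i + 1) * (u * w * g.coeff 0) ^ i := by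
        intro i
        rw [hP, Polynomial.comp_C_mul_X_coeff, Polynomial.coeff_divX]
      obtain ⟨m, hm⟩ : ∃ m, g.natDegree = m + 1 := ⟨g.natDegree - 1, by omega⟩
      obtain ⟨z, hz⟩ := exists_nonunit k A hA (1 + C (u * w) * (X * P)) (by
        have h1 : (1 + C (u * w) * (X * P) : A[X]).coeff (m + 1) ≠ 0 := by
          rw [Polynomial.coeff_add, Polynomial.coeff_C_mul, Polynomial.coeff_X_mul, hcf,
            Polynomial.coeff_one, if_neg (Nat.succ_ne_zero m), zero_add, ← hm]
          refine mul_ne_zero hD (mul_ne_zero ?_ (pow_ne_zero _ (mul_ne_zero hD h0)))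
          rw [Polynomial.coeff_natDegree, Ne, Polynomial.leadingCoeff_eq_zero]
          rintro rfl
          simp at hg
        have := Polynomial.le_natDegree_of_ne_zero h1
        omega)
      obtain ⟨c, hc, hzc⟩ := exists_max_ideal_of_mem_nonunits hz
      have h2 : (1 + C (u * w) * (X * P) : A[X]).eval z =
          1 + (u * w) * (z * g.divX.eval (u * w * g.coeff 0 * z)) := by
        rw [hP]
        simp [Polynomial.eval_comp]
      rw [h2] at hzc
      refine ⟨c, z * g.divX.eval (u * w * g.coeff 0 * z), u * w * g.coeff 0 * z, hc, hzc, ?_⟩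
      have h3 : g.eval (u * w * g.coeff 0 * z) = g.coeff 0 *
          (1 + (u * w) * (z * g.divX.eval (u * w * g.coeff 0 * z))) := by
        have h4 := congrArg (Polynomial.eval (u * w * g.coeff 0 * z))
          (Polynomial.divX_mul_X_add g)
        simp only [Polynomial.eval_add, Polynomial.eval_mul, Polynomial.eval_X,
          Polynomial.eval_C] at h4
        rw [← h4]
        ring
      rw [h3]
      exact c.mul_mem_left _ hzc
  obtain ⟨c, t, x, hc, h1, hx⟩ := key
  have hDc : u * w ∉ c := by
    intro h2
    apply hc.ne_top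
    rw [Ideal.eq_top_iff_one]
    have := c.sub_mem h1 (c.mul_mem_right t h2)
    rwa [add_sub_cancel_right] at this
  refine ⟨⟨c, hc⟩, fun h2 => hDc (c.mul_mem_right w h2), ⟨x, hx⟩, ?_, fin_quot k A c hc⟩
  by_contra hlt
  exact hDc (c.mul_mem_left u (hw c hc (not_le.1 hlt)))

end Pool.Agent.Y141.Lay
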